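import Pool.Agent.Helper25.PCap.Defs
import Pool.Agent.Helper25.PCap.GoalsTools
import Pool.Agent.Helper25.PCap.GoalsS

/-!
Planar p-capacity (MP_576c25_an): packet S1, the penalized slit solution.
-/

set_option autoImplicit false

open MeasureTheory Set Filter Topology
open scoped ContDiff Real

noncomputable section

namespace Pool.Agent.Helper80.PCap

open Pool.Agent.Helper25.PCap

theorem D1_sub {f g : ℝ × ℝ → ℝ} {z : ℝ × ℝ} (hf : DifferentiableAt ℝ f z)
    (hg : DifferentiableAt ℝ g z) : D1 (fun y => f y - g y) z = D1 f z - D1 g z := by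
  unfold D1
  rw [fderiv_fun_sub hf hg]
  rfl

theorem D2_sub {f g : ℝ × ℝ → ℝ} {z : ℝ × ℝ} (hf : DifferentiableAt ℝ f z)
    (hg : DifferentiableAt ℝ g z) : D2 (fun y => f y - g y) z = D2 f z - D2 g z := by
  unfold D2
  rw [fderiv_fun_sub hf hg]
  rfl

theorem contDiff_D {f : ℝ × ℝ → ℝ} (hf : ContDiff ℝ 2 f) (v : ℝ × ℝ) :
    ContDiff ℝ 1 (fun z => fderiv ℝ f z v) :=
  (hf.fderiv_right (m := 1) (by norm_num)).clm_apply contDiff_const

theorem LL_sub (κ : ℝ) {f g : ℝ × ℝ → ℝ} (hf : ContDiff ℝ 2 f) (hg : ContDiff ℝ 2 g)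
    (z : ℝ × ℝ) : LL κ (fun y => f y - g y) z = LL κ f z - LL κ g z := by
  have hf1 : Differentiable ℝ f := hf.differentiable (by norm_num)
  have hg1 : Differentiable ℝ g := hg.differentiable (by norm_num)
  have e1 : D1 (fun y => f y - g y) = fun y => D1 f y - D1 g y := by
    funext y; exact D1_sub (hf1 y) (hg1 y)
  have e2 : D2 (fun y => f y - g y) = fun y => D2 f y - D2 g y := by
    funext y; exact D2_sub (hf1 y) (hg1 y)
  have df1 : Differentiable ℝ (D1 f) := (contDiff_D hf (1, 0)).differentiable (by norm_num)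
  have dg1 : Differentiable ℝ (D1 g) := (contDiff_D hg (1, 0)).differentiable (by norm_num)
  have df2 : Differentiable ℝ (D2 f) := (contDiff_D hf (0, 1)).differentiable (by norm_num)
  have dg2 : Differentiable ℝ (D2 g) := (contDiff_D hg (0, 1)).differentiable (by norm_num)
  unfold LL
  rw [e1, e2, D1_sub (df1 z) (dg1 z), D2_sub (df2 z) (dg2 z)]
  ring

/-- the exponential solution -/
def phi (κ : ℝ) (z : ℝ × ℝ) : ℝ := 1 - Real.exp ((1 - κ) * z.1)

theorem phi_contDiff (κ : ℝ) : ContDiff ℝ 2 (phi κ) := by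
  unfold phi
  exact contDiff_const.sub ((contDiff_const.mul contDiff_fst).exp)

theorem hasFDerivAt_exp1 (e : ℝ) (z : ℝ × ℝ) :
    HasFDerivAt (fun y : ℝ × ℝ => Real.exp (e * y.1))
      (Real.exp (e * z.1) • (e • ContinuousLinearMap.fst ℝ ℝ ℝ)) z := by
  have h1 : HasFDerivAt (fun y : ℝ × ℝ => e * y.1) (e • ContinuousLinearMap.fst ℝ ℝ ℝ) z :=
    (hasFDerivAt_fst (𝕜 := ℝ) (E := ℝ) (F := ℝ) (p := z)).const_mul e
  exact h1.exp

theorem LL_phi (κ : ℝ) (z : ℝ × ℝ) : LL κ (phi κ) z = 0 := by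
  have h1 : ∀ y : ℝ × ℝ, HasFDerivAt (phi κ)
      (-(Real.exp ((1 - κ) * y.1) • ((1 - κ) • ContinuousLinearMap.fst ℝ ℝ ℝ))) y := by
    intro y
    exact (hasFDerivAt_exp1 (1 - κ) y).const_sub 1
  have e1 : D1 (phi κ) = fun y => -((1 - κ) * Real.exp ((1 - κ) * y.1)) := by
    funext y
    unfold D1
    rw [(h1 y).fderiv]
    simp
    ring
  have e2 : D2 (phi κ) = fun _ => 0 := by
    funext y
    unfold D2
    rw [(h1 y).fderiv]
    simp
  have h2 : HasFDerivAt (fun y : ℝ × ℝ => -((1 - κ) * Real.exp ((1 - κ) * y.1)))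
      (-((1 - κ) • (Real.exp ((1 - κ) * z.1) • ((1 - κ) • ContinuousLinearMap.fst ℝ ℝ ℝ)))) z :=
    ((hasFDerivAt_exp1 (1 - κ) z).const_mul (1 - κ)).neg
  have e3 : D1 (fun y : ℝ × ℝ => -((1 - κ) * Real.exp ((1 - κ) * y.1))) z =
      -((1 - κ) ^ 2 * Real.exp ((1 - κ) * z.1)) := by
    unfold D1
    rw [h2.fderiv]
    simp
    ring
  have e4 : D2 (fun _ : ℝ × ℝ => (0 : ℝ)) z = 0 := by
    unfold D2
    simp
  unfold LL
  rw [e2, e4, e1, e3]
  ring

theorem pkS1 (hE : GE) (hc : GRQc) (hq : GMPq) (hQ : GQF) : GS1 := by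
  intro κ k h hκ hκ1 hk
  obtain ⟨hQh, -⟩ := hQ
  obtain ⟨hqs, ⟨K0, hK0⟩, hq01, hqneg, -, -, hqmono, -⟩ := hQh h
  have hqs1 : ContDiff ℝ 1 (qf h) := hqs.of_le (by exact_mod_cast le_top)
  set f : ℝ × ℝ → ℝ → ℝ := fun x z => k * ((1 - qf h x) * z) with hf
  have hfC : ContDiff ℝ 1 (fun p : (ℝ × ℝ) × ℝ => f p.1 p.2) := by
    simp only [hf]
    exact contDiff_const.mul
      ((contDiff_const.sub (hqs1.comp contDiff_fst)).mul contDiff_snd)
  have hK0' : 0 ≤ K0 := le_trans (norm_nonneg _) (hK0 0)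
  have hfd : ∀ x z, 0 ≤ z → z ≤ 1 →
      ‖fderiv ℝ (fun p : (ℝ × ℝ) × ℝ => f p.1 p.2) (x, z)‖ ≤ k * (1 + K0) := by
    intro x z hz hz1
    have d1 : HasFDerivAt (fun p : (ℝ × ℝ) × ℝ => qf h p.1)
        ((fderiv ℝ (qf h) x).comp (ContinuousLinearMap.fst ℝ (ℝ × ℝ) ℝ)) (x, z) := by
      have h1 : HasFDerivAt (qf h) (fderiv ℝ (qf h) x) ((x, z) : (ℝ × ℝ) × ℝ).1 :=
        (hqs1.differentiable (by norm_num) x).hasFDerivAt
      have h2 : HasFDerivAt (fun p : (ℝ × ℝ) × ℝ => p.1)
        (ContinuousLinearMap.fst ℝ (ℝ × ℝ) ℝ) (x, z) := hasFDerivAt_fst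
      exact h1.comp (x, z) h2
    have d2 : HasFDerivAt (fun p : (ℝ × ℝ) × ℝ => 1 - qf h p.1)
        (-((fderiv ℝ (qf h) x).comp (ContinuousLinearMap.fst ℝ (ℝ × ℝ) ℝ))) (x, z) :=
      d1.const_sub 1
    have d3 : HasFDerivAt (fun p : (ℝ × ℝ) × ℝ => p.2)
        (ContinuousLinearMap.snd ℝ (ℝ × ℝ) ℝ) (x, z) := hasFDerivAt_snd
    have d4 := (d2.mul d3).const_mul k
    have d5 : fderiv ℝ (fun p : (ℝ × ℝ) × ℝ => f p.1 p.2) (x, z) =
        k • ((1 - qf h x) • ContinuousLinearMap.snd ℝ (ℝ × ℝ) ℝ +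
          z • (-((fderiv ℝ (qf h) x).comp (ContinuousLinearMap.fst ℝ (ℝ × ℝ) ℝ)))) := d4.fderiv
    rw [d5, norm_smul, Real.norm_of_nonneg hk.le]
    refine mul_le_mul_of_nonneg_left ?_ hk.le
    refine (norm_add_le _ _).trans ?_
    have q0 := (hq01 x).1
    have q1 := (hq01 x).2
    refine add_le_add ?_ ?_
    · rw [norm_smul, Real.norm_of_nonneg (by linarith)]
      have : ‖ContinuousLinearMap.snd ℝ (ℝ × ℝ) ℝ‖ ≤ 1 := ContinuousLinearMap.norm_snd_le ℝ (ℝ × ℝ) ℝ
      calc (1 - qf h x) * ‖ContinuousLinearMap.snd ℝ (ℝ × ℝ) ℝ‖ ≤ 1 * 1 := by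
            apply mul_le_mul (by linarith) this (norm_nonneg _) (by norm_num)
        _ = 1 := by ring
    · rw [norm_smul, Real.norm_of_nonneg hz, norm_neg]
      have h1 : ‖(fderiv ℝ (qf h) x).comp (ContinuousLinearMap.fst ℝ (ℝ × ℝ) ℝ)‖ ≤ K0 * 1 := by
        refine (ContinuousLinearMap.opNorm_comp_le _ _).trans ?_
        exact mul_le_mul (hK0 x) (ContinuousLinearMap.norm_fst_le ℝ (ℝ × ℝ) ℝ) (norm_nonneg _) hK0'
      calc z * ‖(fderiv ℝ (qf h) x).comp (ContinuousLinearMap.fst ℝ (ℝ × ℝ) ℝ)‖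
          ≤ 1 * (K0 * 1) := mul_le_mul hz1 h1 (norm_nonneg _) (by norm_num)
        _ = K0 := by ring
  have hfm : ∀ x z z', 0 ≤ z → z ≤ z' → z' ≤ 1 → f x z ≤ f x z' := by
    intro x z z' _ hzz _
    have q1 := (hq01 x).2
    simp only [hf]
    exact mul_le_mul_of_nonneg_left (mul_le_mul_of_nonneg_left hzz (by linarith)) hk.le
  have hf0 : ∀ x, 0 ≤ f x 0 := by
    intro x
    simp [hf]
  have hf1 : ∀ x, f x 1 ≤ k := by
    intro x
    have q0 := (hq01 x).1
    simp only [hf]
    nlinarith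
  obtain ⟨hZ01, hZdec, hZC, hZLL, Z, hZc, hZt, hZe⟩ :=
    hE κ k (k * (1 + K0)) hκ hκ1 hk f hfC hfd hfm hf0 hf1
  obtain ⟨hR1, -, hRmono, -, -, hRtr, hRref⟩ := hc κ k hκ hκ1 hk
  -- bounds and measurability of the right hand sides
  have hgC : ∀ j, Continuous (fun x => f x (Zseq κ k f j x)) := by
    intro j
    simp only [hf]
    exact continuous_const.mul ((continuous_const.sub hqs.continuous).mul (hZC j).continuous)
  have hg0 : ∀ j x, 0 ≤ f x (Zseq κ k f j x) := by
    intro j x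
    have q1 := (hq01 x).2
    simp only [hf]
    exact mul_nonneg hk.le (mul_nonneg (by linarith) (hZ01 j x).1)
  have hg1 : ∀ j x, f x (Zseq κ k f j x) ≤ k := by
    intro j x
    exact (hfm x _ 1 (hZ01 j x).1 (hZ01 j x).2 le_rfl).trans (hf1 x)
  -- symmetries of the weight
  have hqp : ∀ y : ℝ × ℝ, qf h (y + (0, π)) = qf h y := by
    intro y
    simp [qf, Real.sin_add_pi]
  have hqe : ∀ y : ℝ × ℝ, qf h (y.1, -y.2) = qf h y := by
    intro y
    simp [qf]
  have hper : ∀ j x, Zseq κ k f j (x + (0, π)) = Zseq κ k f j x := by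
    intro j
    induction j with
    | zero => intro x; rfl
    | succ j ih =>
      intro x
      show Rq κ k (fun x => f x (Zseq κ k f j x)) (x + (0, π)) =
        Rq κ k (fun x => f x (Zseq κ k f j x)) x
      rw [hRtr]
      congr 1
      funext y
      simp only [hf]
      rw [hqp y, ih y]
  have heven : ∀ j (x : ℝ × ℝ), Zseq κ k f j (x.1, -x.2) = Zseq κ k f j x := by
    intro j
    induction j with
    | zero => intro x; rfl
    | succ j ih =>
      intro x
      show Rq κ k (fun x => f x (Zseq κ k f j x)) (x.1, -x.2) =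
        Rq κ k (fun x => f x (Zseq κ k f j x)) x
      rw [hRref]
      congr 1
      funext y
      simp only [hf]
      rw [hqe y, ih y]
  have hanti : ∀ j (x : ℝ × ℝ) (t : ℝ), 0 ≤ t → Zseq κ k f j (x + (t, 0)) ≤ Zseq κ k f j x := by
    intro j
    induction j with
    | zero => intro x t _; exact le_rfl
    | succ j ih =>
      intro x t ht
      show Rq κ k (fun x => f x (Zseq κ k f j x)) (x + (t, 0)) ≤
        Rq κ k (fun x => f x (Zseq κ k f j x)) x
      rw [hRtr]
      refine hRmono _ _ k ?_ (hgC j).measurable ?_ ?_ ?_ x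
      · exact ((hgC j).comp (continuous_id.add continuous_const)).measurable
      · intro y
        rw [abs_of_nonneg (hg0 j _)]
        exact hg1 j _
      · intro y
        rw [abs_of_nonneg (hg0 j _)]
        exact hg1 j _
      · intro y
        have hq2 : qf h y ≤ qf h (y + (t, 0)) := by
          have e : y + (t, 0) = (y.1 + t, y.2) := by
            ext <;> simp
          rw [e]
          exact hqmono y.1 (y.1 + t) y.2 (by linarith)
        have q1 := (hq01 (y + (t, 0))).2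
        simp only [hf]
        refine mul_le_mul_of_nonneg_left ?_ hk.le
        exact mul_le_mul (by linarith) (ih y t ht) (hZ01 j _).1 (by linarith)
  have hlow : ∀ j x, phi κ x ≤ Zseq κ k f j x := by
    intro j
    induction j with
    | zero =>
      intro x
      show phi κ x ≤ 1
      unfold phi
      have := Real.exp_pos ((1 - κ) * x.1)
      linarith
    | succ j ih =>
      have key := hq κ k hκ hκ1 hk (fun x => phi κ x - Zseq κ k f (j + 1) x) 1
        ((phi_contDiff κ).continuous.sub (hZC (j + 1)).continuous) ?_ ?_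
      · intro x
        have := key x
        linarith
      · intro z
        have h1 := (hZ01 (j + 1) z).1
        have h2 := Real.exp_pos ((1 - κ) * z.1)
        unfold phi
        linarith
      · intro z hz
        refine ⟨((phi_contDiff κ).sub (hZC (j + 1))).contDiffAt, ?_⟩
        rw [LL_sub κ (phi_contDiff κ) (hZC (j + 1)), LL_phi, hZLL]
        have hpos : 0 < phi κ z := by
          have h1 := (hZ01 (j + 1) z).1
          linarith
        have hτ : z.1 ≤ 0 := by
          by_contra hcon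
          push Not at hcon
          unfold phi at hpos
          have : 1 ≤ Real.exp ((1 - κ) * z.1) := by
            apply Real.one_le_exp
            exact mul_nonneg (by linarith) hcon.le
          linarith
        have hq0 : qf h z = 0 := hqneg z hτ
        have h3 := ih z
        simp only [hf]
        rw [hq0]
        nlinarith
  refine ⟨Z, hZc, ?_, ?_, ?_, ?_, ?_⟩
  · intro z
    refine ⟨ge_of_tendsto' (hZt z) (fun j => (hZ01 j z).1),
      le_of_tendsto' (hZt z) (fun j => (hZ01 j z).2),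
      ge_of_tendsto' (hZt z) (fun j => hlow j z)⟩
  · intro z
    rw [hZe z]
    simp only [hf]
    ring
  · intro τ θ
    have h1 := hZt (τ, θ + π)
    have h2 := hZt (τ, θ)
    refine tendsto_nhds_unique h1 (h2.congr ?_)
    intro j
    have := hper j (τ, θ)
    simpa using this.symm
  · intro τ θ
    have h1 := hZt (τ, -θ)
    have h2 := hZt (τ, θ)
    refine tendsto_nhds_unique h1 (h2.congr ?_)
    intro j
    exact (heven j (τ, θ)).symm
  · intro τ τ' θ hττ
    refine le_of_tendsto_of_tendsto' (hZt (τ', θ)) (hZt (τ, θ)) ?_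
    intro j
    have := hanti j (τ, θ) (τ' - τ) (by linarith)
    simpa using this

end Pool.Agent.Helper80.PCap
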